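import Pool.Agent.X297.LS.Stage
import Mathlib.MeasureTheory.OuterMeasure.BorelCantelli
import Mathlib.Order.LiminfLimsup
import Mathlib.Topology.Order.LiminfLimsup

/-!
# The sequence of functions
-/

open MeasureTheory Filter

namespace Pool.Agent.X297.LS

/-- The construction. -/
lemma assembly : ∃ F : ℕ → Set ℝ, (∀ n, MeasurableSet (F n)) ∧
    (∀ (n : ℕ) (x : ℝ), x + 1 / n ∈ F n ↔ x ∈ F n) ∧
    (∀ᵐ x : ℝ, x ∈ Set.Ico (1 / 64 : ℝ) (1 / 32) → ∀ᶠ n in atTop, x ∉ F n) ∧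
    (∀ᵐ x : ℝ, x ∈ Set.Icc (2 / 5 + 1 / 64 : ℝ) (3 / 5) → ∃ᶠ n in atTop, x ∈ F n) := by
  choose E M hE1 hE2 hE3 hE4 hE5 using fun s : ℕ =>
    stage (ε := (1 / 2) ^ (s + 1)) (by positivity)
      (pow_lt_one₀ (by norm_num) (by norm_num) (Nat.succ_ne_zero s)) s
  have hsum : ∑' s : ℕ, ENNReal.ofReal ((1 / 2) ^ (s + 1)) ≠ ⊤ := by
    refine Summable.tsum_ofReal_ne_top ?_
    exact (summable_nat_add_iff 1).2 (summable_geometric_of_lt_one (by norm_num) (by norm_num))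
  refine ⟨fun n => ⋃ s, E s n, fun n => MeasurableSet.iUnion fun s => hE2 s n, ?_, ?_, ?_⟩
  · intro n x
    rw [Set.mem_iUnion, Set.mem_iUnion]
    exact exists_congr fun s => hE3 s n x
  · filter_upwards [ae_eventually_notMem (ne_top_of_le_ne_top hsum (ENNReal.tsum_le_tsum hE4))]
      with x hx hxJ
    obtain ⟨s0, hs0⟩ := eventually_atTop.1 hx
    filter_upwards [eventually_gt_atTop (∑ s ∈ Finset.range s0, M s)] with n hn hxn
    obtain ⟨s, hs⟩ := Set.mem_iUnion.1 hxn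
    have h1 : s < s0 := by
      by_contra h
      exact hs0 s (not_lt.1 h) ⟨hxJ, Set.mem_iUnion.2 ⟨n, hs⟩⟩
    have h2 := (hE1 s n x hs).2
    have h3 : M s ≤ ∑ s ∈ Finset.range s0, M s :=
      Finset.single_le_sum (f := M) (fun _ _ => Nat.zero_le _) (Finset.mem_range.2 h1)
    omega
  · filter_upwards [ae_eventually_notMem (ne_top_of_le_ne_top hsum (ENNReal.tsum_le_tsum hE5))]
      with x hx hxB
    obtain ⟨s0, hs0⟩ := eventually_atTop.1 hx
    rw [frequently_atTop]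
    intro a
    have h1 := hs0 (max s0 a) (le_max_left _ _)
    rw [Set.mem_sdiff, not_and_not_right] at h1
    obtain ⟨n, hn⟩ := Set.mem_iUnion.1 (h1 hxB)
    have h2 := (hE1 _ n x hn).1
    exact ⟨n, (le_max_right s0 a).trans h2.le, Set.mem_iUnion.2 ⟨_, hn⟩⟩

/-- A set of positive measure meets every property which holds almost everywhere. -/
lemma exists_of_ae {J : Set ℝ} (hJ : volume J ≠ 0) {p : ℝ → Prop} (h : ∀ᵐ x, x ∈ J → p x) :
    ∃ x, p x := by
  by_contra hcon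
  push Not at hcon
  apply hJ
  rw [measure_eq_zero_iff_ae_notMem]
  filter_upwards [h] with x hx hxJ
  exact hcon x (hx hxJ)

lemma vol_J : volume (Set.Ico (1 / 64 : ℝ) (1 / 32)) ≠ 0 := by
  rw [Real.volume_Ico, ne_eq, ENNReal.ofReal_eq_zero]
  norm_num

lemma vol_B : volume (Set.Icc (2 / 5 + 1 / 64 : ℝ) (3 / 5)) ≠ 0 := by
  rw [Real.volume_Icc, ne_eq, ENNReal.ofReal_eq_zero]
  norm_num

end Pool.Agent.X297.LS
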