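import Pool.Agent.X297.LS.Kernel

/-!
# Averages of products of kernels
-/

open Complex

namespace Pool.Agent.X297.LS

lemma single_le_double {α β : Type*} (T : Finset α) (S : Finset β) (w : α → β → ℝ)
    (hw : ∀ f n, 0 ≤ w f n) {a : α} (ha : a ∈ T) {b : β} (hb : b ∈ S) :
    w a b ≤ ∑ f ∈ T, ∑ n ∈ S, w f n :=
  (Finset.single_le_sum (f := fun n => w a n) (fun n _ => hw a n) hb).trans
    (Finset.single_le_sum (f := fun f => ∑ n ∈ S, w f n)
      (fun f _ => Finset.sum_nonneg fun n _ => hw f n) ha)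

/-- Pairwise coprime numbers with a Bezout relation. -/
structure CRT (m : ℕ) where
  p : Fin m → ℕ
  pos : ∀ l, 0 < p l
  c : Fin m → ℤ
  bez : ∑ l, c l * ∏ j ∈ {l}ᶜ, (p j : ℤ) = 1

namespace CRT

variable {m : ℕ} (D : CRT m)

/-- The product. -/
def P : ℕ := ∏ l, D.p l

lemma P_pos : 0 < D.P := Finset.prod_pos fun l _ => D.pos l

/-- The product of the other numbers. -/
def q (l : Fin m) : ℕ := ∏ j ∈ {l}ᶜ, D.p j

lemma p_mul_q (l : Fin m) : D.p l * D.q l = D.P := by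
  rw [q, P, Fintype.prod_eq_mul_prod_compl l]

lemma bez' : ∑ l, D.c l * (D.q l : ℤ) = 1 := by
  rw [← D.bez]
  refine Finset.sum_congr rfl fun l _ => ?_
  rw [q]
  push_cast
  rfl

/-- The coordinates. -/
noncomputable def z (l : Fin m) (k : ℤ) : ℂ := ee (k * (D.c l / D.p l))

lemma norm_z (l : Fin m) (k : ℤ) : ‖D.z l k‖ = 1 := norm_ee _

lemma z_add (l : Fin m) (k : ℤ) {a : ℤ} (h : (D.p l : ℤ) ∣ a) : D.z l (k + a) = D.z l k := by
  obtain ⟨b, rfl⟩ := h
  have hp : (D.p l : ℝ) ≠ 0 := by exact_mod_cast (D.pos l).ne'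
  rw [z, z]
  have h1 : (((k + D.p l * b : ℤ) : ℝ) * (D.c l / D.p l)) =
      k * (D.c l / D.p l) + ((b * D.c l : ℤ) : ℝ) := by
    push_cast
    field_simp
  rw [h1, ee_add, ee_int, mul_one]

lemma p_dvd_q {l j : Fin m} (h : j ≠ l) : D.p l ∣ D.q j :=
  Finset.dvd_prod_of_mem _ (by simp [h.symm])

/-- The sum of the numerators. -/
lemma dvd_iff (g : Fin m → ℤ) :
    (D.P : ℤ) ∣ ∑ l, g l * (D.c l * (D.q l : ℤ)) ↔ ∀ l, (D.p l : ℤ) ∣ g l := by
  constructor
  · intro h l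
    have h1 : (D.p l : ℤ) ∣ D.P := by
      rw [← D.p_mul_q l]
      push_cast
      exact dvd_mul_right _ _
    have h2 : ∀ f : Fin m → ℤ, (D.p l : ℤ) ∣ ∑ j, f j * (D.q j : ℤ) - f l * (D.q l : ℤ) := by
      intro f
      rw [← Finset.sum_erase_eq_sub (Finset.mem_univ l)]
      refine Finset.dvd_sum fun j hj => ?_
      exact dvd_mul_of_dvd_right (Int.natCast_dvd_natCast.2
        (D.p_dvd_q (Finset.ne_of_mem_erase hj))) _
    have h3 := h2 fun j => g j * D.c j
    have h4 : ∑ j, g j * D.c j * (D.q j : ℤ) = ∑ l, g l * (D.c l * (D.q l : ℤ)) :=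
      Finset.sum_congr rfl fun j _ => by ring
    rw [h4] at h3
    have h5 : (D.p l : ℤ) ∣ g l * D.c l * (D.q l : ℤ) := by
      have := dvd_sub (h1.trans h) h3
      rwa [sub_sub_cancel] at this
    have h6 := h2 D.c
    rw [D.bez'] at h6
    have h7 : g l = g l * (1 - D.c l * (D.q l : ℤ)) + g l * D.c l * (D.q l : ℤ) := by ring
    rw [h7]
    exact dvd_add (dvd_mul_of_dvd_right h6 _) h5
  · intro h
    refine Finset.dvd_sum fun l _ => ?_
    obtain ⟨b, hb⟩ := h l
    rw [hb, ← D.p_mul_q l]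
    push_cast
    exact ⟨b * D.c l, by ring⟩

lemma prod_z (g : Fin m → ℤ) (k : ℤ) : ∏ l, D.z l k ^ g l =
    ee (k * (((∑ l, g l * (D.c l * (D.q l : ℤ)) : ℤ) : ℝ) / D.P)) := by
  have h1 : ∀ l, D.z l k ^ g l = ee (g l * (k * (D.c l / D.p l))) := fun l => ee_zpow _ _
  simp only [h1]
  rw [← ee_sum]
  congr 1
  push_cast
  rw [Finset.sum_div, Finset.mul_sum]
  refine Finset.sum_congr rfl fun l _ => ?_
  have hp : (D.p l : ℝ) ≠ 0 := by exact_mod_cast (D.pos l).ne'
  have h2 : (D.P : ℝ) = D.p l * D.q l := by exact_mod_cast (D.p_mul_q l).symm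
  have h3 : (D.q l : ℝ) ≠ 0 := by
    have : D.P ≠ 0 := D.P_pos.ne'
    rw [← D.p_mul_q l] at this
    exact_mod_cast right_ne_zero_of_mul this
  rw [h2]
  field_simp

/-- The product of the coordinates. -/
lemma prod_z_one (k : ℤ) : ∏ l, D.z l k = ee (k / D.P) := by
  have h := D.prod_z (fun _ => 1) k
  simp only [zpow_one, one_mul] at h
  rw [h, D.bez']
  push_cast
  rw [mul_one_div]

lemma avg_exp (g : Fin m → ℤ) : ∑ k ∈ Finset.range D.P, ∏ l, D.z l k ^ g l =
    if ∀ l, (D.p l : ℤ) ∣ g l then (D.P : ℂ) else 0 := by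
  have h1 : ∀ k : ℕ, ∏ l, D.z l k ^ g l =
      ee (k * (((∑ l, g l * (D.c l * (D.q l : ℤ)) : ℤ) : ℝ) / D.P)) := by
    intro k
    have := D.prod_z g k
    rw [this]
    push_cast
    rfl
  simp only [h1]
  rw [sum_ee D.P_pos]
  simp only [D.dvd_iff]

/-- The index of the expansion. -/
lemma dvd_zero {ν : Fin m → ℕ} (hν : ∀ l, ν l < D.p l) {f : Fin m → ℤ}
    (hf : f ∈ Fintype.piFinset fun l => Finset.Icc (-(ν l : ℤ)) (ν l))
    (h : ∀ l, (D.p l : ℤ) ∣ f l) : f = 0 := by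
  funext l
  have h1 := Fintype.mem_piFinset.1 hf l
  rw [Finset.mem_Icc] at h1
  have h2 := hν l
  refine Int.eq_zero_of_abs_lt_dvd (h l) ?_
  rw [abs_lt]
  constructor <;> omega

/-- The average of a product of kernels. -/
lemma prod_avg {ν : Fin m → ℕ} (hν : ∀ l, ν l < D.p l) :
    ∑ k ∈ Finset.range D.P, ∏ l, Fk (ν l) (D.z l k) = D.P * ∏ l, cf (ν l) 0 := by
  classical
  have h1 : ((∑ k ∈ Finset.range D.P, ∏ l, Fk (ν l) (D.z l k) : ℝ) : ℂ) =
      ((D.P * ∏ l, cf (ν l) 0 : ℝ) : ℂ) := by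
    push_cast
    have h2 : ∀ k : ℕ, ∏ l, (Fk (ν l) (D.z l k) : ℂ) =
        ∑ f ∈ Fintype.piFinset fun l => Finset.Icc (-(ν l : ℤ)) (ν l),
          (∏ l, (cf (ν l) (f l) : ℂ)) * ∏ l, D.z l k ^ f l := by
      intro k
      rw [Finset.prod_congr rfl fun l _ => Fk_eq (ν l) (D.norm_z l k) le_rfl,
        Finset.prod_univ_sum]
      refine Finset.sum_congr rfl fun f _ => ?_
      rw [Finset.prod_mul_distrib]
    rw [Finset.sum_congr rfl fun k _ => h2 k, Finset.sum_comm]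
    simp only [← Finset.mul_sum, D.avg_exp]
    rw [Finset.sum_eq_single 0]
    · rw [if_pos (by simp)]
      simp only [Pi.zero_apply]
      ring
    · intro f hf hf0
      rw [if_neg fun h => hf0 (D.dvd_zero hν hf h), mul_zero]
    · intro h
      exfalso
      apply h
      rw [Fintype.mem_piFinset]
      intro l
      rw [Pi.zero_apply, Finset.mem_Icc]
      omega
  exact_mod_cast h1

/-- A lower bound for the average of a product with a kernel of a product. -/
lemma low_avg (ν : Fin m → ℕ) (N : ℕ) (d : Fin m → ℤ) :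
    D.P * (cf N 0 * ∏ l, cf (ν l) 0) ≤ ∑ k ∈ Finset.range D.P,
      (∏ l, Fk (ν l) (D.z l k)) * Fk N (∏ l, D.z l k ^ d l) := by
  classical
  set T := Fintype.piFinset fun l => Finset.Icc (-(ν l : ℤ)) (ν l) with hT
  have h1 : ((∑ k ∈ Finset.range D.P,
      (∏ l, Fk (ν l) (D.z l k)) * Fk N (∏ l, D.z l k ^ d l) : ℝ) : ℂ) =
      ((∑ f ∈ T, ∑ n ∈ Finset.Icc (-(N : ℤ)) N, (∏ l, cf (ν l) (f l)) * cf N n *
        (if ∀ l, (D.p l : ℤ) ∣ f l + n * d l then (D.P : ℝ) else 0) : ℝ) : ℂ) := by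
    push_cast
    have h2 : ∀ k : ℕ, (∏ l, (Fk (ν l) (D.z l k) : ℂ)) * (Fk N (∏ l, D.z l k ^ d l) : ℂ) =
        ∑ f ∈ T, ∑ n ∈ Finset.Icc (-(N : ℤ)) N, (∏ l, (cf (ν l) (f l) : ℂ)) * (cf N n : ℂ) *
          ∏ l, D.z l k ^ (f l + n * d l) := by
      intro k
      have hn : ‖∏ l, D.z l k ^ d l‖ = 1 := by
        rw [norm_prod]
        refine Finset.prod_eq_one fun l _ => ?_
        rw [norm_zpow, D.norm_z, one_zpow]
      rw [Finset.prod_congr rfl fun l _ => Fk_eq (ν l) (D.norm_z l k) le_rfl,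
        Finset.prod_univ_sum, Fk_eq N hn le_rfl, Finset.sum_mul_sum]
      refine Finset.sum_congr rfl fun f _ => Finset.sum_congr rfl fun n _ => ?_
      rw [Finset.prod_mul_distrib, ← Finset.prod_zpow]
      have h3 : ∀ l, D.z l k ^ (f l + n * d l) = D.z l k ^ f l * (D.z l k ^ d l) ^ n := by
        intro l
        have h4 : D.z l k ≠ 0 := by
          intro h
          have := D.norm_z l k
          rw [h, norm_zero] at this
          exact zero_ne_one this
        rw [zpow_add₀ h4, mul_comm n, zpow_mul]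
      simp only [h3]
      rw [Finset.prod_mul_distrib]
      ring
    rw [Finset.sum_congr rfl fun k _ => h2 k, Finset.sum_comm]
    refine Finset.sum_congr rfl fun f _ => ?_
    rw [Finset.sum_comm]
    refine Finset.sum_congr rfl fun n _ => ?_
    rw [← Finset.mul_sum, D.avg_exp]
    split_ifs <;> simp
  have h2 : (∑ k ∈ Finset.range D.P,
      (∏ l, Fk (ν l) (D.z l k)) * Fk N (∏ l, D.z l k ^ d l) : ℝ) =
      ∑ f ∈ T, ∑ n ∈ Finset.Icc (-(N : ℤ)) N, (∏ l, cf (ν l) (f l)) * cf N n *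
        (if ∀ l, (D.p l : ℤ) ∣ f l + n * d l then (D.P : ℝ) else 0) := by
    exact_mod_cast h1
  rw [h2]
  have hnn : ∀ f : Fin m → ℤ, ∀ n : ℤ, 0 ≤ (∏ l, cf (ν l) (f l)) * cf N n *
      (if ∀ l, (D.p l : ℤ) ∣ f l + n * d l then (D.P : ℝ) else 0) := by
    intro f n
    refine mul_nonneg (mul_nonneg (Finset.prod_nonneg fun l _ => cf_nonneg _ _) (cf_nonneg _ _)) ?_
    split_ifs <;> positivity
  have h0 : (0 : Fin m → ℤ) ∈ T := by
    rw [hT, Fintype.mem_piFinset]
    intro l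
    rw [Pi.zero_apply, Finset.mem_Icc]
    omega
  have hN : (0 : ℤ) ∈ Finset.Icc (-(N : ℤ)) N := by
    rw [Finset.mem_Icc]
    omega
  refine le_trans (le_of_eq ?_) (single_le_double T (Finset.Icc (-(N : ℤ)) N) _ hnn h0 hN)
  rw [if_pos (by simp)]
  simp only [Pi.zero_apply]
  ring

end CRT

/-- The constant coefficient is not too small. -/
lemma cf_zero_ge (N : ℕ) : 1 / ((N : ℝ) + 1) ≤ cf N 0 := by
  let D : CRT 1 := { p := fun _ => N + 1, pos := fun _ => Nat.succ_pos N, c := fun _ => 1,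
                     bez := by
                      have h0 : ({0}ᶜ : Finset (Fin 1)) = ∅ := by decide
                      rw [Fin.sum_univ_one, h0]
                      simp }
  have h := D.prod_avg (ν := fun _ => N) fun _ => Nat.lt_succ_self N
  have hP : D.P = N + 1 := by
    change ∏ _l : Fin 1, (N + 1) = N + 1
    simp
  simp only [Finset.univ_unique, Finset.prod_singleton, hP] at h
  have h1 : (1 : ℝ) ≤ ∑ k ∈ Finset.range (N + 1), Fk N (D.z default k) := by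
    refine le_trans (le_of_eq ?_) (Finset.single_le_sum (f := fun k : ℕ => Fk N (D.z default k))
      (fun k _ => Fk_nonneg N (D.norm_z _ _)) (Finset.mem_range.2 (Nat.succ_pos N)))
    simp only [CRT.z, Nat.cast_zero, Int.cast_zero, zero_mul, ee_zero, Fk_one]
  rw [h] at h1
  rw [div_le_iff₀ (by positivity)]
  push_cast at h1
  linarith

end Pool.Agent.X297.LS
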