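import Pool.Agent.X297.LS.Cell
import Mathlib.Analysis.Real.Pi.Bounds

/-!
# The block
-/

open MeasureTheory

namespace Pool.Agent.X297.LS

/-- The exponents: zero at `i`. -/
def nu {m : ℕ} (N : ℕ) (i l : Fin m) : ℕ := if l = i then 0 else N

/-- The exponents: zero at `i`. -/
def dd {m : ℕ} (i l : Fin m) : ℤ := if l = i then 0 else 1

/-- The exponents: zero at `i` and `j`. -/
def mu {m : ℕ} (N : ℕ) (i j l : Fin m) : ℕ := if l = i ∨ l = j then 0 else N

lemma ee_near {t : ℝ} (h0 : 0 ≤ t) (h1 : t ≤ 1 / 32) : ‖ee t - 1‖ ≤ 1 / 5 := by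
  have h2 : ee t = Complex.exp (Complex.I * ((2 * Real.pi * t : ℝ) : ℂ)) := by
    rw [ee]
    congr 1
    push_cast
    ring
  rw [h2]
  refine (Real.norm_exp_I_mul_ofReal_sub_one_le).trans ?_
  rw [Real.norm_eq_abs, abs_of_nonneg (by positivity)]
  have := Real.pi_lt_d2
  nlinarith [Real.pi_pos]

lemma ee_far {t : ℝ} (h0 : 1 / 3 ≤ t) (h1 : t ≤ 2 / 3) : (ee t).re ≤ -1 / 2 := by
  have h2 : ee t = Complex.exp (((2 * Real.pi * t : ℝ) : ℂ) * Complex.I) := by
    rw [ee]
    congr 1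
    push_cast
    ring
  rw [h2, Complex.exp_ofReal_mul_I_re]
  have h3 : Real.cos (2 * Real.pi * t) = -Real.cos (|2 * Real.pi * t - Real.pi|) := by
    rw [Real.cos_abs, Real.cos_sub_pi, neg_neg]
  have h4 : |2 * Real.pi * t - Real.pi| ≤ Real.pi / 3 := by
    rw [abs_le]
    constructor <;> nlinarith [Real.pi_pos]
  have h5 := Real.cos_le_cos_of_nonneg_of_le_pi (abs_nonneg _)
    (by linarith [Real.pi_pos] : Real.pi / 3 ≤ Real.pi) h4
  rw [Real.cos_pi_div_three] at h5
  rw [h3]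
  linarith

lemma int_sum {ι : Type*} (s : Finset ι) {f : ι → ℝ → ℝ} {a b : ℝ}
    (h : ∀ i ∈ s, IntervalIntegrable (f i) volume a b) :
    IntervalIntegrable (fun x => ∑ i ∈ s, f i x) volume a b := by
  have h1 := IntervalIntegrable.sum s h
  rwa [Finset.sum_fn] at h1

namespace CRT

variable {m : ℕ} (D : CRT m) (N : ℕ)

/-- The heights of the set `V i`. -/
noncomputable def phi (i : Fin m) (k : ℤ) : ℝ :=
  (∏ l, Fk (nu N i l) (D.z l k)) * Fk N (∏ l, D.z l k ^ dd i l)

/-- The heights of the set `U i j`. -/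
noncomputable def psi (i j : Fin m) (k : ℤ) : ℝ :=
  (25 / 36) ^ N * ∏ l, Fk (mu N i j l) (D.z l k)

/-- The heights of the set containing the `V i` near zero. -/
noncomputable def chi (k : ℤ) : ℝ := (6 / 5) ^ N * ∏ l, Fk N (D.z l k)

lemma z_ne (l : Fin m) (k : ℤ) : D.z l k ≠ 0 := ee_ne _

lemma norm_prod_z (d : Fin m → ℤ) (k : ℤ) : ‖∏ l, D.z l k ^ d l‖ = 1 := by
  rw [norm_prod]
  refine Finset.prod_eq_one fun l _ => ?_
  rw [norm_zpow, D.norm_z, one_zpow]

lemma phi_nonneg (i : Fin m) (k : ℤ) : 0 ≤ D.phi N i k :=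
  mul_nonneg (Finset.prod_nonneg fun l _ => Fk_nonneg _ (D.norm_z l k))
    (Fk_nonneg _ (D.norm_prod_z _ k))

lemma phi_le_one (i : Fin m) (k : ℤ) : D.phi N i k ≤ 1 :=
  mul_le_one₀ (Finset.prod_le_one (fun l _ => Fk_nonneg _ (D.norm_z l k))
    fun l _ => Fk_le_one _ (D.norm_z l k)) (Fk_nonneg _ (D.norm_prod_z _ k))
    (Fk_le_one _ (D.norm_prod_z _ k))

lemma psi_nonneg (i j : Fin m) (k : ℤ) : 0 ≤ D.psi N i j k :=
  mul_nonneg (by positivity) (Finset.prod_nonneg fun l _ => Fk_nonneg _ (D.norm_z l k))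

lemma chi_nonneg (k : ℤ) : 0 ≤ D.chi N k :=
  mul_nonneg (by positivity) (Finset.prod_nonneg fun l _ => Fk_nonneg _ (D.norm_z l k))

lemma phi_eq (i : Fin m) (k : ℤ) : D.phi N i k =
    (∏ l ∈ Finset.univ.erase i, Fk N (D.z l k)) * Fk N (ee (k / D.P) * (D.z i k)⁻¹) := by
  have h1 : ∏ l, Fk (nu N i l) (D.z l k) = ∏ l ∈ Finset.univ.erase i, Fk N (D.z l k) := by
    rw [← Finset.mul_prod_erase _ _ (Finset.mem_univ i), nu, if_pos rfl, Fk_zero, one_mul]
    refine Finset.prod_congr rfl fun l hl => ?_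
    rw [nu, if_neg (Finset.ne_of_mem_erase hl)]
  have h2 : ∏ l, D.z l k ^ dd i l = ee (k / D.P) * (D.z i k)⁻¹ := by
    rw [← D.prod_z_one, ← Finset.mul_prod_erase _ _ (Finset.mem_univ i), dd, if_pos rfl, zpow_zero,
      one_mul, ← Finset.mul_prod_erase (Finset.univ) (fun l => D.z l k) (Finset.mem_univ i),
      mul_comm (D.z i k), mul_assoc, mul_inv_cancel₀ (D.z_ne i k), mul_one]
    refine Finset.prod_congr rfl fun l hl => ?_
    rw [dd, if_neg (Finset.ne_of_mem_erase hl), zpow_one]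
  rw [phi, h1, h2]

lemma phi_le_chi (i : Fin m) {k : ℤ} (hk : ‖ee (k / D.P) - 1‖ ≤ 1 / 5) :
    D.phi N i k ≤ D.chi N k := by
  rw [phi_eq, chi, ← Finset.mul_prod_erase _ _ (Finset.mem_univ i)]
  have h1 := Fk_near N (D.norm_z i k) hk
  have h2 : 0 ≤ ∏ l ∈ Finset.univ.erase i, Fk N (D.z l k) :=
    Finset.prod_nonneg fun l _ => Fk_nonneg _ (D.norm_z l k)
  calc _ ≤ (∏ l ∈ Finset.univ.erase i, Fk N (D.z l k)) * ((6 / 5) ^ N * Fk N (D.z i k)) :=
        mul_le_mul_of_nonneg_left h1 h2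
    _ = _ := by ring

lemma lt_psi {i j : Fin m} (hij : i ≠ j) {k : ℤ} (hk : (ee (k / D.P)).re ≤ -1 / 2) {t : ℝ}
    (h1 : t < D.phi N i k) (h2 : t < D.phi N j k) : t < D.psi N i j k := by
  by_contra h
  rw [not_lt] at h
  set u := ee (k / D.P) with hu
  set A := ∏ l ∈ (Finset.univ.erase i).erase j, Fk N (D.z l k) with hA
  have hA0 : 0 ≤ A := Finset.prod_nonneg fun l _ => Fk_nonneg _ (D.norm_z l k)
  have h3 : D.psi N i j k = (25 / 36) ^ N * A := by
    rw [psi, ← Finset.mul_prod_erase _ _ (Finset.mem_univ i),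
      ← Finset.mul_prod_erase (Finset.univ.erase i) _ (Finset.mem_erase.2 ⟨hij.symm,
        Finset.mem_univ j⟩)]
    have h4 : mu N i j i = 0 := by rw [mu, if_pos (Or.inl rfl)]
    have h5 : mu N i j j = 0 := by rw [mu, if_pos (Or.inr rfl)]
    rw [h4, h5, Fk_zero, Fk_zero, one_mul, one_mul]
    congr 1
    refine Finset.prod_congr rfl fun l hl => ?_
    rw [mu, if_neg]
    rintro (rfl | rfl)
    · exact (Finset.ne_of_mem_erase (Finset.mem_of_mem_erase hl)) rfl
    · exact (Finset.ne_of_mem_erase hl) rfl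
  have h4 : D.phi N i k = Fk N (D.z j k) * A * Fk N (u * (D.z i k)⁻¹) := by
    rw [phi_eq, ← Finset.mul_prod_erase (Finset.univ.erase i) _ (Finset.mem_erase.2 ⟨hij.symm,
        Finset.mem_univ j⟩)]
  have h5 : D.phi N j k = Fk N (D.z i k) * A * Fk N (u * (D.z j k)⁻¹) := by
    rw [phi_eq, ← Finset.mul_prod_erase (Finset.univ.erase j) _ (Finset.mem_erase.2 ⟨hij,
        Finset.mem_univ i⟩), Finset.erase_right_comm]
  have h6 := Fk_far N (D.norm_z i k) (norm_ee (k / D.P)) hk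
  have h7 := Fk_far N (D.norm_z j k) (norm_ee (k / D.P)) hk
  rw [← hu] at h6 h7
  have h8 : ‖u * (D.z i k)⁻¹‖ = 1 := by
    rw [norm_mul, norm_inv, D.norm_z, hu, norm_ee]
    norm_num
  have h9 : ‖u * (D.z j k)⁻¹‖ = 1 := by
    rw [norm_mul, norm_inv, D.norm_z, hu, norm_ee]
    norm_num
  have h10 : D.phi N i k * D.phi N j k ≤ D.psi N i j k * D.psi N i j k := by
    rw [h3, h4, h5]
    have h11 := mul_le_mul h6 h7 (mul_nonneg (Fk_nonneg N (D.norm_z j k)) (Fk_nonneg N h9))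
      (by positivity : (0 : ℝ) ≤ (25 / 36) ^ N)
    have h12 := mul_le_mul_of_nonneg_left h11 (mul_nonneg hA0 hA0)
    calc _ = A * A * (Fk N (D.z i k) * Fk N (u * (D.z i k)⁻¹) *
          (Fk N (D.z j k) * Fk N (u * (D.z j k)⁻¹))) := by ring
      _ ≤ _ := h12
      _ = _ := by ring
  have h11 := D.psi_nonneg N i j k
  have h12 : D.psi N i j k < D.phi N i k := lt_of_le_of_lt h h1
  have h13 : D.psi N i j k < D.phi N j k := lt_of_le_of_lt h h2
  nlinarith [mul_pos (sub_pos.2 h12) (sub_pos.2 h13)]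

/-- The period of the heights. -/
lemma phi_add (i : Fin m) (k : ℤ) : D.phi N i (k + D.q i) = D.phi N i k := by
  have h1 : ∀ l, l ≠ i → D.z l (k + D.q i) = D.z l k := fun l hl =>
    D.z_add l k (Int.natCast_dvd_natCast.2 (D.p_dvd_q hl.symm))
  rw [phi, phi]
  congr 1
  · refine Finset.prod_congr rfl fun l _ => ?_
    by_cases hl : l = i
    · rw [nu, if_pos hl, Fk_zero, Fk_zero]
    · rw [h1 l hl]
  · congr 1
    refine Finset.prod_congr rfl fun l _ => ?_
    by_cases hl : l = i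
    · rw [dd, if_pos hl, zpow_zero, zpow_zero]
    · rw [h1 l hl]

lemma psi_add (i j : Fin m) (k : ℤ) : D.psi N i j (k + D.q i) = D.psi N i j k := by
  have h1 : ∀ l, l ≠ i → D.z l (k + D.q i) = D.z l k := fun l hl =>
    D.z_add l k (Int.natCast_dvd_natCast.2 (D.p_dvd_q hl.symm))
  rw [psi, psi]
  congr 1
  refine Finset.prod_congr rfl fun l _ => ?_
  by_cases hl : l = i
  · rw [mu, if_pos (Or.inl hl), Fk_zero, Fk_zero]
  · rw [h1 l hl]

/-- The set `V i`. -/
def V (i : Fin m) : Set ℝ := cs D.P (D.phi N i)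

/-- The set `U i j`. -/
def U (i j : Fin m) : Set ℝ := cs D.P (D.psi N i j)

lemma meas_V (i : Fin m) : MeasurableSet (D.V N i) := meas_cs _ _

lemma meas_U (i j : Fin m) : MeasurableSet (D.U N i j) := meas_cs _ _

lemma V_per (i : Fin m) (x : ℝ) : x + 1 / D.p i ∈ D.V N i ↔ x ∈ D.V N i :=
  cs_periodic (D.pos i) (D.p_mul_q i) (D.phi_add N i) x

lemma U_per (i j : Fin m) (x : ℝ) : x + 1 / D.p i ∈ D.U N i j ↔ x ∈ D.U N i j :=
  cs_periodic (D.pos i) (D.p_mul_q i) (D.psi_add N i j) x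

lemma ind_V (i : Fin m) : cf N 0 ^ m ≤ ind (D.V N i) 0 1 := by
  have hP : (0 : ℝ) < D.P := by exact_mod_cast D.P_pos
  have h1 := ind_eq (D.meas_V N i) (zero_le_one (α := ℝ))
  have h2 := vol_cs_ge D.P_pos (D.phi_nonneg N i) (D.phi_le_one N i)
  rw [← V, ← h1, ENNReal.ofReal_le_ofReal_iff (ind_nonneg zero_le_one)] at h2
  refine le_trans ?_ h2
  rw [le_div_iff₀ hP]
  have h3 := D.low_avg (nu N i) N (dd i)
  have h4 : cf N 0 * ∏ l, cf (nu N i l) 0 = cf N 0 ^ m := by
    rw [← Finset.mul_prod_erase _ _ (Finset.mem_univ i), nu, if_pos rfl]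
    have h5 : cf 0 0 = 1 := by rw [cf, if_pos rfl]
    rw [h5, one_mul, Finset.prod_congr rfl (g := fun _ => cf N 0) (fun l hl => by
      rw [nu, if_neg (Finset.ne_of_mem_erase hl)]),
      Finset.mul_prod_erase Finset.univ (fun _ => cf N 0) (Finset.mem_univ i)]
    simp
  rw [h4, mul_comm] at h3
  exact h3

lemma ind_U (hN : ∀ l, N < D.p l) {i j : Fin m} (hij : i ≠ j) :
    ind (D.U N i j) 0 1 * cf N 0 ^ 2 ≤ (25 / 36) ^ N * cf N 0 ^ m := by
  have hP : (0 : ℝ) < D.P := by exact_mod_cast D.P_pos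
  have h1 := ind_eq (D.meas_U N i j) (zero_le_one (α := ℝ))
  have h2 := vol_cs_le D.P_pos (D.psi_nonneg N i j)
  have h20 : 0 ≤ (∑ k ∈ Finset.range D.P, D.psi N i j k) / D.P :=
    div_nonneg (Finset.sum_nonneg fun k _ => D.psi_nonneg N i j k) hP.le
  rw [← U, ← h1, ENNReal.ofReal_le_ofReal_iff h20] at h2
  have h3 := D.prod_avg (ν := mu N i j) fun l => by
    rw [mu]
    split_ifs
    · exact D.pos l
    · exact hN l
  have h4 : cf N 0 ^ 2 * ∏ l, cf (mu N i j l) 0 = cf N 0 ^ m := by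
    have h40 : ∏ l : Fin m, cf N 0 = cf N 0 ^ m := by simp
    rw [← h40, ← Finset.mul_prod_erase Finset.univ _ (Finset.mem_univ i),
      ← Finset.mul_prod_erase (Finset.univ.erase i) _ (Finset.mem_erase.2 ⟨hij.symm,
        Finset.mem_univ j⟩),
      ← Finset.mul_prod_erase Finset.univ (fun _ => cf N 0) (Finset.mem_univ i),
      ← Finset.mul_prod_erase (Finset.univ.erase i) (fun _ => cf N 0)
        (Finset.mem_erase.2 ⟨hij.symm, Finset.mem_univ j⟩)]
    have h41 : mu N i j i = 0 := by rw [mu, if_pos (Or.inl rfl)]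
    have h42 : mu N i j j = 0 := by rw [mu, if_pos (Or.inr rfl)]
    have h5 : cf 0 0 = 1 := by rw [cf, if_pos rfl]
    rw [h41, h42, h5, one_mul, one_mul, ← mul_assoc, ← sq]
    congr 1
    refine Finset.prod_congr rfl fun l hl => ?_
    rw [mu, if_neg]
    rintro (rfl | rfl)
    · exact (Finset.ne_of_mem_erase (Finset.mem_of_mem_erase hl)) rfl
    · exact (Finset.ne_of_mem_erase hl) rfl
  have h5 : (∑ k ∈ Finset.range D.P, D.psi N i j k) / D.P =
      (25 / 36) ^ N * ∏ l, cf (mu N i j l) 0 := by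
    simp only [psi]
    rw [← Finset.mul_sum, h3]
    field_simp
  rw [h5] at h2
  calc _ ≤ ((25 / 36) ^ N * ∏ l, cf (mu N i j l) 0) * cf N 0 ^ 2 :=
        mul_le_mul_of_nonneg_right h2 (sq_nonneg _)
    _ = (25 / 36) ^ N * (cf N 0 ^ 2 * ∏ l, cf (mu N i j l) 0) := by ring
    _ = _ := by rw [h4]

/-- The union of the sets `V i`. -/
def W : Set ℝ := ⋃ i, D.V N i

lemma meas_W : MeasurableSet (D.W N) := MeasurableSet.iUnion fun i => D.meas_V N i

/-- The measure of the union near `0`. -/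
lemma W_near (hN : ∀ l, N < D.p l) :
    volume (D.W N ∩ Set.Ico 0 (1 / 32)) ≤ ENNReal.ofReal ((6 / 5) ^ N * cf N 0 ^ m) := by
  have hP : (0 : ℝ) < D.P := by exact_mod_cast D.P_pos
  have h1 : D.W N ∩ Set.Ico 0 (1 / 32) ⊆ cs D.P (D.chi N) ∩ Set.Ico 0 1 := by
    rintro x ⟨hx, hx0, hx1⟩
    obtain ⟨i, hi⟩ := Set.mem_iUnion.1 hx
    refine ⟨?_, hx0, hx1.trans (by norm_num)⟩
    have h2 : Int.fract ((D.P : ℝ) * x) < D.phi N i ⌊(D.P : ℝ) * x⌋ := hi
    refine h2.trans_le (D.phi_le_chi N i (ee_near ?_ ?_))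
    · refine div_nonneg ?_ hP.le
      have : 0 ≤ ⌊(D.P : ℝ) * x⌋ := Int.floor_nonneg.2 (by positivity)
      exact_mod_cast this
    · rw [div_le_iff₀ hP]
      refine (Int.floor_le _).trans ?_
      rw [mul_comm]
      exact mul_le_mul_of_nonneg_right hx1.le hP.le
  refine (measure_mono h1).trans ((vol_cs_le D.P_pos (D.chi_nonneg N)).trans ?_)
  apply ENNReal.ofReal_le_ofReal
  have h2 := D.prod_avg (ν := fun _ => N) hN
  simp only [chi]
  rw [← Finset.mul_sum, h2]
  simp only [Finset.prod_const, Finset.card_univ, Fintype.card_fin]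
  apply le_of_eq
  field_simp

/-- The union is large away from `0`. -/
lemma W_far (hN : ∀ l, N < D.p l) {h : ℝ} (h0 : 0 < h) (hp : ∀ l, 2 / h ≤ D.p l) (hP15 : 15 ≤ D.P)
    (hm : 8 * m * (25 / 36) ^ N ≤ cf N 0 ^ 2) {y : ℝ} (hy : 2 / 5 ≤ y) (hy' : y + h ≤ 3 / 5) :
    m * cf N 0 ^ m / 4 * h ≤ ind (D.W N) y (y + h) := by
  have hP : (0 : ℝ) < D.P := by exact_mod_cast D.P_pos
  have hP15' : (15 : ℝ) ≤ D.P := by exact_mod_cast hP15
  have hκ : 0 < cf N 0 := lt_of_lt_of_le (by positivity) (cf_zero_ge N)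
  have h1 : ∀ x ∈ Set.Icc y (y + h),
      ∑ i, (D.V N i).indicator (fun _ => (1 : ℝ)) x ≤ (D.W N).indicator (fun _ => (1 : ℝ)) x +
        ∑ i, ∑ j ∈ Finset.univ.erase i, (D.U N i j).indicator (fun _ => (1 : ℝ)) x := by
    rintro x ⟨hx1, hx2⟩
    have h2 : ∀ i j, 0 ≤ (D.U N i j).indicator (fun _ => (1 : ℝ)) x := fun i j =>
      Set.indicator_nonneg (fun _ _ => zero_le_one) _
    by_cases hx : x ∈ D.W N
    · obtain ⟨i0, hi0⟩ := Set.mem_iUnion.1 hx
      rw [Set.indicator_of_mem hx, ← Finset.add_sum_erase _ _ (Finset.mem_univ i0),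
        Set.indicator_of_mem hi0]
      refine add_le_add_right ?_ 1
      calc _ ≤ ∑ i ∈ Finset.univ.erase i0, (D.U N i0 i).indicator (fun _ => (1 : ℝ)) x := by
            refine Finset.sum_le_sum fun i hi => ?_
            by_cases h3 : x ∈ D.V N i
            · have h4 : x ∈ D.U N i0 i := by
                refine D.lt_psi N (Finset.ne_of_mem_erase hi).symm (ee_far ?_ ?_) hi0 h3
                · rw [le_div_iff₀ hP]
                  have h5 := Int.lt_floor_add_one ((D.P : ℝ) * x)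
                  nlinarith
                · rw [div_le_iff₀ hP]
                  refine (Int.floor_le _).trans ?_
                  nlinarith
              rw [Set.indicator_of_mem h3, Set.indicator_of_mem h4]
            · rw [Set.indicator_of_notMem h3]
              exact h2 _ _
        _ ≤ _ := Finset.single_le_sum (f := fun i => ∑ j ∈ Finset.univ.erase i,
            (D.U N i j).indicator (fun _ => (1 : ℝ)) x)
            (fun i _ => Finset.sum_nonneg fun j _ => h2 i j) (Finset.mem_univ i0)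
    · rw [Finset.sum_eq_zero]
      · exact add_nonneg (Set.indicator_nonneg (fun _ _ => zero_le_one) _)
          (Finset.sum_nonneg fun i _ => Finset.sum_nonneg fun j _ => h2 i j)
      · intro i _
        exact Set.indicator_of_notMem (fun h => hx (Set.mem_iUnion.2 ⟨i, h⟩)) _
  have h2 : ∑ i, ind (D.V N i) y (y + h) ≤ ind (D.W N) y (y + h) +
      ∑ i, ∑ j ∈ Finset.univ.erase i, ind (D.U N i j) y (y + h) := by
    have h3 : IntervalIntegrable (fun x => ∑ i, (D.V N i).indicator (fun _ => (1 : ℝ)) x)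
        volume y (y + h) :=
      int_sum _ fun i _ => int_ind (D.meas_V N i) _ _
    have h4 : IntervalIntegrable (fun x => ∑ i, ∑ j ∈ Finset.univ.erase i,
        (D.U N i j).indicator (fun _ => (1 : ℝ)) x) volume y (y + h) :=
      int_sum _ fun i _ => int_sum _ fun j _ =>
        int_ind (D.meas_U N i j) _ _
    have h5 := intervalIntegral.integral_mono_on (by linarith) h3
      ((int_ind (D.meas_W N) y (y + h)).add h4) h1
    rw [intervalIntegral.integral_add (int_ind (D.meas_W N) y (y + h)) h4,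
      intervalIntegral.integral_finsetSum fun i _ => int_ind (D.meas_V N i) _ _,
      intervalIntegral.integral_finsetSum fun i _ => int_sum _ fun j _ =>
        int_ind (D.meas_U N i j) _ _] at h5
    refine h5.trans (le_of_eq ?_)
    congr 1
    refine Finset.sum_congr rfl fun i _ => ?_
    rw [intervalIntegral.integral_finsetSum fun j _ => int_ind (D.meas_U N i j) _ _]
    rfl
  have hp' : ∀ i, 1 / (D.p i : ℝ) ≤ h / 2 := by
    intro i
    have h3 : (0 : ℝ) < D.p i := by exact_mod_cast D.pos i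
    have h4 := hp i
    rw [div_le_iff₀ h0] at h4
    rw [div_le_iff₀ h3]
    linarith
  have h3 : m * (h / 2 * cf N 0 ^ m) ≤ ∑ i, ind (D.V N i) y (y + h) := by
    have h4 : ∀ i ∈ (Finset.univ : Finset (Fin m)), h / 2 * cf N 0 ^ m ≤
        ind (D.V N i) y (y + h) := by
      intro i _
      refine le_trans ?_ (ind_window (D.meas_V N i) (D.pos i) (D.V_per N i) y h0.le).1
      refine mul_le_mul ?_ (D.ind_V N i) (by positivity) ?_
      · linarith [hp' i]
      · linarith [hp' i]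
    have h5 := Finset.card_nsmul_le_sum _ _ _ h4
    rwa [Finset.card_univ, Fintype.card_fin, nsmul_eq_mul] at h5
  have h4 : (∑ i, ∑ j ∈ Finset.univ.erase i, ind (D.U N i j) y (y + h)) * cf N 0 ^ 2 ≤
      m * (m * (3 / 2 * h * ((25 / 36) ^ N * cf N 0 ^ m))) := by
    rw [Finset.sum_mul]
    have h40 : 0 ≤ 3 / 2 * h * ((25 / 36) ^ N * cf N 0 ^ m) := by positivity
    have h5 : ∀ i ∈ (Finset.univ : Finset (Fin m)),
        (∑ j ∈ Finset.univ.erase i, ind (D.U N i j) y (y + h)) * cf N 0 ^ 2 ≤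
          m * (3 / 2 * h * ((25 / 36) ^ N * cf N 0 ^ m)) := by
      intro i _
      rw [Finset.sum_mul]
      have h6 : ∀ j ∈ Finset.univ.erase i, ind (D.U N i j) y (y + h) * cf N 0 ^ 2 ≤
          3 / 2 * h * ((25 / 36) ^ N * cf N 0 ^ m) := by
        intro j hj
        have h7 := (ind_window (D.meas_U N i j) (D.pos i) (D.U_per N i j) y h0.le).2
        have h8 := D.ind_U N hN (Finset.ne_of_mem_erase hj).symm
        have h9 : 0 ≤ ind (D.U N i j) 0 1 := ind_nonneg zero_le_one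
        calc _ ≤ ((h + 1 / D.p i) * ind (D.U N i j) 0 1) * cf N 0 ^ 2 :=
              mul_le_mul_of_nonneg_right h7 (sq_nonneg _)
          _ ≤ (3 / 2 * h * ind (D.U N i j) 0 1) * cf N 0 ^ 2 := by
              refine mul_le_mul_of_nonneg_right (mul_le_mul_of_nonneg_right ?_ h9) (sq_nonneg _)
              linarith [hp' i]
          _ = 3 / 2 * h * (ind (D.U N i j) 0 1 * cf N 0 ^ 2) := by ring
          _ ≤ _ := mul_le_mul_of_nonneg_left h8 (by positivity)
      have h7 := Finset.sum_le_card_nsmul _ _ _ h6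
      refine h7.trans ?_
      rw [nsmul_eq_mul]
      refine mul_le_mul_of_nonneg_right ?_ h40
      have h8 : (Finset.univ.erase i).card ≤ m := by
        refine (Finset.card_le_card (Finset.erase_subset _ _)).trans ?_
        simp
      exact_mod_cast h8
    have h6 := Finset.sum_le_card_nsmul _ _ _ h5
    rwa [Finset.card_univ, Fintype.card_fin, nsmul_eq_mul] at h6
  have h5 : (∑ i, ∑ j ∈ Finset.univ.erase i, ind (D.U N i j) y (y + h)) ≤
      3 / 16 * (m * (h * cf N 0 ^ m)) := by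
    have h6 : (m : ℝ) * (m * (3 / 2 * h * ((25 / 36) ^ N * cf N 0 ^ m))) ≤
        3 / 16 * (m * (h * cf N 0 ^ m)) * cf N 0 ^ 2 := by
      have h7 : 0 ≤ 3 / 16 * (m * (h * cf N 0 ^ m)) := by positivity
      have h8 := mul_le_mul_of_nonneg_left hm h7
      calc _ = 3 / 16 * (m * (h * cf N 0 ^ m)) * (8 * m * (25 / 36) ^ N) := by ring
        _ ≤ _ := h8
    exact le_of_mul_le_mul_right (h4.trans h6) (by positivity)
  have h6 : 0 ≤ m * (h * cf N 0 ^ m) := by positivity
  nlinarith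

end CRT

end Pool.Agent.X297.LS
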