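import Pool.Agent.X297.LS.Avg
import Mathlib.MeasureTheory.Integral.IntervalIntegral.Periodic
import Mathlib.MeasureTheory.Integral.IntervalIntegral.Basic
import Mathlib.Analysis.SpecialFunctions.Trigonometric.Bounds
import Mathlib.MeasureTheory.Function.Floor

/-!
# Sets made of cells, and periodic sets
-/

open MeasureTheory

namespace Pool.Agent.X297.LS

/-- The set of the `x` whose position in the cell `k` of length `1 / P` is less than `φ k`. -/
def cs (P : ℕ) (φ : ℤ → ℝ) : Set ℝ := {x | Int.fract (P * x) < φ ⌊(P : ℝ) * x⌋}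

lemma meas_cs (P : ℕ) (φ : ℤ → ℝ) : MeasurableSet (cs P φ) := by
  have h1 : Measurable fun x : ℝ => (P : ℝ) * x := measurable_id.const_mul _
  have h2 : Measurable fun x : ℝ => Int.fract ((P : ℝ) * x) := measurable_fract.comp h1
  have h3 : Measurable fun x : ℝ => φ ⌊(P : ℝ) * x⌋ :=
    (measurable_from_top (f := φ)).comp (Int.measurable_floor.comp h1)
  exact measurableSet_lt h2 h3

lemma cell_mem {P : ℕ} (hP : 0 < P) {x : ℝ} (k : ℤ) :
    ⌊(P : ℝ) * x⌋ = k ↔ x ∈ Set.Ico ((k : ℝ) / P) ((k + 1) / P) := by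
  have hP' : (0 : ℝ) < P := by exact_mod_cast hP
  rw [Int.floor_eq_iff, Set.mem_Ico, div_le_iff₀ hP', lt_div_iff₀ hP', mul_comm x]

/-- The measure of a set made of cells. -/
lemma vol_cs_le {P : ℕ} (hP : 0 < P) {φ : ℤ → ℝ} (h0 : ∀ k, 0 ≤ φ k) :
    volume (cs P φ ∩ Set.Ico 0 1) ≤ ENNReal.ofReal ((∑ k ∈ Finset.range P, φ k) / P) := by
  have hP' : (0 : ℝ) < P := by exact_mod_cast hP
  have h1 : cs P φ ∩ Set.Ico 0 1 ⊆
      ⋃ k ∈ Finset.range P, Set.Ico ((k : ℝ) / P) ((k + φ k) / P) := by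
    rintro x ⟨hx, hx0, hx1⟩
    have h2 : (0 : ℤ) ≤ ⌊(P : ℝ) * x⌋ := Int.floor_nonneg.2 (by positivity)
    have h3 : ⌊(P : ℝ) * x⌋ < P := by
      rw [Int.floor_lt]
      push_cast
      nlinarith
    obtain ⟨k, hk⟩ := Int.eq_ofNat_of_zero_le h2
    have h4 := (cell_mem hP (x := x) k).1 hk
    rw [Int.cast_natCast] at h4
    refine Set.mem_iUnion₂.2 ⟨k, Finset.mem_range.2 (by omega), h4.1, ?_⟩
    have h5 : Int.fract ((P : ℝ) * x) < φ ⌊(P : ℝ) * x⌋ := hx
    rw [Int.fract, hk, Int.cast_natCast] at h5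
    rw [lt_div_iff₀ hP', mul_comm]
    linarith
  refine (measure_mono h1).trans ((measure_biUnion_finset_le _ _).trans ?_)
  rw [Finset.sum_div, ENNReal.ofReal_sum_of_nonneg fun k _ => div_nonneg (h0 _) hP'.le]
  refine Finset.sum_le_sum fun k _ => ?_
  rw [Real.volume_Ico]
  apply ENNReal.ofReal_le_ofReal
  rw [← sub_div]
  simp

lemma vol_cs_ge {P : ℕ} (hP : 0 < P) {φ : ℤ → ℝ} (h0 : ∀ k, 0 ≤ φ k) (h1 : ∀ k, φ k ≤ 1) :
    ENNReal.ofReal ((∑ k ∈ Finset.range P, φ k) / P) ≤ volume (cs P φ ∩ Set.Ico 0 1) := by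
  have hP' : (0 : ℝ) < P := by exact_mod_cast hP
  have h2 : (⋃ k ∈ Finset.range P, Set.Ico ((k : ℝ) / P) ((k + φ k) / P)) ⊆
      cs P φ ∩ Set.Ico 0 1 := by
    intro x hx
    obtain ⟨k, hk, hx1, hx2⟩ := Set.mem_iUnion₂.1 hx
    have hkP : (k : ℝ) + 1 ≤ P := by
      have := Finset.mem_range.1 hk
      exact_mod_cast this
    have h3 : x < ((k : ℝ) + 1) / P := hx2.trans_le (by
      gcongr
      exact h1 k)
    have h4 : ⌊(P : ℝ) * x⌋ = (k : ℤ) := (cell_mem hP _).2 ⟨by rw [Int.cast_natCast]; exact hx1,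
      by rw [Int.cast_natCast]; exact h3⟩
    refine ⟨?_, ?_, ?_⟩
    · change Int.fract ((P : ℝ) * x) < φ ⌊(P : ℝ) * x⌋
      rw [Int.fract, h4]
      rw [lt_div_iff₀ hP', mul_comm] at hx2
      push_cast
      linarith
    · exact le_trans (by positivity) hx1
    · refine h3.trans_le ?_
      rw [div_le_one hP']
      exact hkP
  refine le_trans ?_ (measure_mono h2)
  rw [measure_biUnion_finset]
  · rw [Finset.sum_div, ENNReal.ofReal_sum_of_nonneg fun k _ => div_nonneg (h0 _) hP'.le]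
    refine Finset.sum_le_sum fun k _ => ?_
    rw [Real.volume_Ico]
    apply ENNReal.ofReal_le_ofReal
    rw [← sub_div]
    simp
  · intro i _ j _ hij
    rw [Function.onFun, Set.disjoint_left]
    intro x hx hx'
    apply hij
    have h5 : ∀ k : ℕ, x ∈ Set.Ico ((k : ℝ) / P) ((k + φ k) / P) → ⌊(P : ℝ) * x⌋ = (k : ℤ) := by
      intro k hk
      refine (cell_mem hP _).2 ⟨by rw [Int.cast_natCast]; exact hk.1, ?_⟩
      refine hk.2.trans_le ?_
      have : (k : ℝ) + φ k ≤ k + 1 := by linarith [h1 k]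
      rw [Int.cast_natCast]
      gcongr
    have := (h5 i hx).symm.trans (h5 j hx')
    exact_mod_cast this
  · exact fun k _ => measurableSet_Ico

lemma cs_periodic {P q n : ℕ} (hn : 0 < n) (hq : n * q = P) {φ : ℤ → ℝ}
    (hφ : ∀ k, φ (k + q) = φ k) (x : ℝ) : x + 1 / n ∈ cs P φ ↔ x ∈ cs P φ := by
  have h1 : (P : ℝ) * (x + 1 / n) = P * x + (q : ℤ) := by
    have hn' : (n : ℝ) ≠ 0 := by exact_mod_cast hn.ne'
    rw [← hq]
    push_cast
    field_simp
  change Int.fract _ < φ ⌊_⌋ ↔ Int.fract _ < φ ⌊_⌋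
  rw [h1, Int.fract_add_intCast, Int.floor_add_intCast, hφ]

/-- The integral of the indicator function. -/
noncomputable def ind (V : Set ℝ) (a b : ℝ) : ℝ := ∫ x in a..b, V.indicator (fun _ => (1 : ℝ)) x

section

variable {V : Set ℝ} (hV : MeasurableSet V)

include hV

lemma int_ind (a b : ℝ) :
    IntervalIntegrable (V.indicator fun _ => (1 : ℝ)) volume a b := by
  refine IntervalIntegrable.mono_fun' (g := fun _ => (1 : ℝ)) intervalIntegrable_const
    ((measurable_const.indicator hV).aestronglyMeasurable) ?_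
  refine Filter.Eventually.of_forall fun x => ?_
  by_cases h : x ∈ V <;> simp [h]

lemma ind_mono {a b c d : ℝ} (hab : a ≤ b) (hca : c ≤ a) (hbd : b ≤ d) :
    ind V a b ≤ ind V c d := by
  rw [ind, ind]
  refine intervalIntegral.integral_mono_interval hca hab hbd ?_ (int_ind hV c d)
  refine Filter.Eventually.of_forall fun x => ?_
  by_cases h : x ∈ V <;> simp [h]

omit hV in
lemma ind_nonneg {a b : ℝ} (hab : a ≤ b) : 0 ≤ ind V a b := by
  rw [ind]
  refine intervalIntegral.integral_nonneg_of_forall hab fun x => ?_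
  by_cases h : x ∈ V <;> simp [h]

lemma ind_eq {a b : ℝ} (hab : a ≤ b) : ENNReal.ofReal (ind V a b) = volume (V ∩ Set.Ico a b) := by
  rw [ind, intervalIntegral.integral_of_le hab, integral_indicator hV,
    Measure.restrict_restrict hV, integral_const, smul_eq_mul, mul_one,
    measureReal_restrict_apply_univ, Measure.real, ENNReal.ofReal_toReal]
  · refine measure_congr ?_
    exact (Filter.EventuallyEq.refl _ V).inter Ico_ae_eq_Ioc.symm
  · refine ne_of_lt (lt_of_le_of_lt (measure_mono Set.inter_subset_right) ?_)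
    rw [Real.volume_Ioc]
    exact ENNReal.ofReal_lt_top

variable {n : ℕ} (hn : 0 < n) (hper : ∀ x : ℝ, x + 1 / n ∈ V ↔ x ∈ V)

include hn hper

lemma ind_period (y : ℝ) (k : ℕ) : ind V y (y + k / n) = k * (ind V 0 1 / n) := by
  have hn' : (n : ℝ) ≠ 0 := by exact_mod_cast hn.ne'
  have hp : Function.Periodic (V.indicator fun _ => (1 : ℝ)) (1 / n) := by
    intro x
    by_cases h : x ∈ V
    · rw [Set.indicator_of_mem ((hper x).2 h), Set.indicator_of_mem h]
    · rw [Set.indicator_of_notMem (fun h' => h ((hper x).1 h')), Set.indicator_of_notMem h]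
  have h1 : ∀ (k : ℕ) (y : ℝ), ind V y (y + k / n) = k * ind V 0 (1 / n) := by
    intro k y
    have h2 := hp.intervalIntegral_add_zsmul_eq k y (int_ind hV)
    rw [hp.intervalIntegral_add_eq y 0, zero_add] at h2
    have h3 : y + ((k : ℕ) : ℤ) • (1 / (n : ℝ)) = y + k / n := by
      rw [zsmul_eq_mul]
      push_cast
      rw [mul_one_div]
    rw [h3] at h2
    rw [ind, h2, zsmul_eq_mul, ind]
    push_cast
    rfl
  have h2 := h1 n 0
  rw [zero_add, div_self hn'] at h2
  rw [h1, h2]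
  field_simp

lemma ind_window (y : ℝ) {h : ℝ} (h0 : 0 ≤ h) :
    (h - 1 / n) * ind V 0 1 ≤ ind V y (y + h) ∧ ind V y (y + h) ≤ (h + 1 / n) * ind V 0 1 := by
  have hn' : (0 : ℝ) < n := by exact_mod_cast hn
  have hv : 0 ≤ ind V 0 1 := ind_nonneg zero_le_one
  set k := ⌊h * n⌋₊ with hk
  have h1 : (k : ℝ) ≤ h * n := Nat.floor_le (by positivity)
  have h2 : h * n < k + 1 := Nat.lt_floor_add_one _
  constructor
  · refine le_trans ?_ (ind_mono hV (a := y) (b := y + k / n) ?_ le_rfl ?_)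
    · rw [ind_period hV hn hper, mul_div_assoc', ← div_mul_eq_mul_div]
      refine mul_le_mul_of_nonneg_right ?_ hv
      rw [le_div_iff₀ hn', sub_mul, one_div, inv_mul_cancel₀ hn'.ne']
      linarith
    · have : (0 : ℝ) ≤ k / n := by positivity
      linarith
    · have : (k : ℝ) / n ≤ h := by rwa [div_le_iff₀ hn']
      linarith
  · refine le_trans (ind_mono hV (c := y) (d := y + (k + 1 : ℕ) / n) (by linarith) le_rfl ?_) ?_
    · have : h ≤ ((k + 1 : ℕ) : ℝ) / n := by
        rw [le_div_iff₀ hn']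
        push_cast
        exact h2.le
      linarith
    · rw [ind_period hV hn hper, mul_div_assoc', ← div_mul_eq_mul_div]
      refine mul_le_mul_of_nonneg_right ?_ hv
      rw [div_le_iff₀ hn', add_mul, one_div, inv_mul_cancel₀ hn'.ne']
      push_cast
      linarith

end

end Pool.Agent.X297.LS
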