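import Pool.Agent.X297.LS.Cell
import Mathlib.MeasureTheory.Measure.Prod
import Mathlib.MeasureTheory.Measure.Lebesgue.Basic

/-!
# Covering by translates
-/

open MeasureTheory

namespace Pool.Agent.X297.LS

/-- The translate of a set. -/
def tr (W : Set ℝ) (τ : ℝ) : Set ℝ := {x | x - τ ∈ W}

lemma meas_tr {W : Set ℝ} (hW : MeasurableSet W) (τ : ℝ) : MeasurableSet (tr W τ) :=
  hW.preimage (measurable_id.sub_const τ)

/-- One step of the greedy covering. -/
lemma greedy_step {W : Set ℝ} (hW : MeasurableSet W) {h δ a b : ℝ} (h0 : 0 < h) (hδ : 0 < δ)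
    (hlow : ∀ y, a ≤ y → y ≤ b → δ * h ≤ ind W (y - h) y) {G : Set ℝ} (hG : MeasurableSet G)
    (hGab : G ⊆ Set.Icc a b) :
    ∃ τ ∈ Set.Icc 0 h, ENNReal.ofReal (δ / 2) * volume G ≤ volume (G ∩ tr W τ) := by
  by_contra hcon
  push Not at hcon
  have hGtop : volume G ≠ ⊤ := by
    refine ne_of_lt (lt_of_le_of_lt (measure_mono hGab) ?_)
    rw [Real.volume_Icc]
    exact ENNReal.ofReal_lt_top
  have hG0 : volume G ≠ 0 := by
    intro h1
    have h2 := hcon 0 ⟨le_rfl, h0.le⟩
    rw [h1, mul_zero] at h2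
    exact not_lt_zero h2
  set T : Set (ℝ × ℝ) := {t | t.1 ∈ Set.Ico 0 h ∧ t.2 ∈ G ∧ t.2 - t.1 ∈ W} with hT
  have hTm : MeasurableSet T := by
    refine (measurable_fst measurableSet_Ico).inter ((measurable_snd hG).inter ?_)
    exact (measurable_snd.sub measurable_fst) hW
  have h1 := Measure.prod_apply (μ := volume) (ν := volume) hTm
  have h2 := Measure.prod_apply_symm (μ := volume) (ν := volume) hTm
  have h3 : ∫⁻ τ, volume (Prod.mk τ ⁻¹' T) ≤
      ∫⁻ τ in Set.Ico 0 h, ENNReal.ofReal (δ / 2) * volume G := by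
    rw [← lintegral_indicator measurableSet_Ico]
    refine lintegral_mono fun τ => ?_
    by_cases hτ : τ ∈ Set.Ico 0 h
    · rw [Set.indicator_of_mem hτ]
      refine le_trans (measure_mono ?_) (hcon τ ⟨hτ.1, hτ.2.le⟩).le
      rintro x ⟨_, hx1, hx2⟩
      exact ⟨hx1, hx2⟩
    · rw [Set.indicator_of_notMem hτ]
      have : Prod.mk τ ⁻¹' T = ∅ := by
        ext x
        constructor
        · rintro ⟨hx, _⟩
          exact (hτ hx).elim
        · intro hx
          exact hx.elim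
      rw [this, measure_empty]
  have h4 : ∫⁻ x in G, ENNReal.ofReal (δ * h) ≤
      ∫⁻ x, volume ((fun τ => (τ, x)) ⁻¹' T) := by
    rw [← lintegral_indicator hG]
    refine lintegral_mono fun x => ?_
    by_cases hx : x ∈ G
    · rw [Set.indicator_of_mem hx]
      have hWx : MeasurableSet {τ : ℝ | x - τ ∈ W} := (measurable_const.sub measurable_id) hW
      have h5 : (fun τ => (τ, x)) ⁻¹' T = {τ : ℝ | x - τ ∈ W} ∩ Set.Ico 0 h := by
        ext τ
        constructor
        · rintro ⟨hτ1, _, hτ2⟩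
          exact ⟨hτ2, hτ1⟩
        · rintro ⟨hτ1, hτ2⟩
          exact ⟨hτ2, hx, hτ1⟩
      rw [h5, ← ind_eq hWx h0.le]
      apply ENNReal.ofReal_le_ofReal
      refine (hlow x (hGab hx).1 (hGab hx).2).trans (le_of_eq ?_)
      have h6 := intervalIntegral.integral_comp_sub_left (a := 0) (b := h)
        (W.indicator fun _ => (1 : ℝ)) x
      rw [sub_zero] at h6
      rw [ind, ind, ← h6]
      rfl
    · rw [Set.indicator_of_notMem hx]
      exact zero_le
  rw [← h2, h1] at h4
  have h5 := h4.trans h3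
  rw [setLIntegral_const, setLIntegral_const, Real.volume_Ico, sub_zero, mul_right_comm,
    ← ENNReal.ofReal_mul (by positivity)] at h5
  have h6 := (ENNReal.mul_le_mul_iff_left hG0 hGtop).1 h5
  rw [ENNReal.ofReal_le_ofReal_iff (by positivity)] at h6
  nlinarith [mul_pos hδ h0]

/-- The greedy covering. -/
lemma greedy {W : Set ℝ} (hW : MeasurableSet W) {h δ a b : ℝ} (h0 : 0 < h) (hδ : 0 < δ)
    (hδ1 : δ ≤ 1) (hlow : ∀ y, a ≤ y → y ≤ b → δ * h ≤ ind W (y - h) y) (R : ℕ) :
    ∃ T : Finset ℝ, T.card ≤ R ∧ (∀ τ ∈ T, τ ∈ Set.Icc 0 h) ∧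
      volume (Set.Icc a b \ ⋃ τ ∈ T, tr W τ) ≤
        ENNReal.ofReal ((1 - δ / 2) ^ R) * volume (Set.Icc a b) := by
  classical
  induction R with
  | zero => exact ⟨∅, le_rfl, by simp, by simp⟩
  | succ R ih =>
    obtain ⟨T, hT1, hT2, hT3⟩ := ih
    set G := Set.Icc a b \ ⋃ τ ∈ T, tr W τ with hGdef
    have hG : MeasurableSet G :=
      measurableSet_Icc.diff (T.measurableSet_biUnion fun τ _ => meas_tr hW τ)
    have hGtop : volume G ≠ ⊤ := by
      refine ne_of_lt (lt_of_le_of_lt (measure_mono Set.sdiff_subset) ?_)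
      rw [Real.volume_Icc]
      exact ENNReal.ofReal_lt_top
    obtain ⟨τ, hτ, hτG⟩ := greedy_step hW h0 hδ hlow hG Set.sdiff_subset
    refine ⟨insert τ T, (Finset.card_insert_le _ _).trans (by omega), ?_, ?_⟩
    · intro σ hσ
      rcases Finset.mem_insert.1 hσ with rfl | hσ
      · exact hτ
      · exact hT2 σ hσ
    · have h1 : Set.Icc a b \ ⋃ σ ∈ insert τ T, tr W σ = G \ tr W τ := by
        rw [Finset.set_biUnion_insert, Set.union_comm, ← Set.sdiff_sdiff]
      rw [h1, pow_succ, mul_comm ((1 - δ / 2) ^ R), ENNReal.ofReal_mul (by linarith), mul_assoc]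
      refine le_trans ?_ (mul_le_mul_right hT3 _)
      have h2 := measure_inter_add_sdiff (μ := volume) G (meas_tr hW τ)
      have h3 : volume (G \ tr W τ) + ENNReal.ofReal (δ / 2) * volume G ≤
          ENNReal.ofReal (1 - δ / 2) * volume G + ENNReal.ofReal (δ / 2) * volume G := by
        rw [← add_mul, ← ENNReal.ofReal_add (by linarith) (by linarith), sub_add_cancel,
          ENNReal.ofReal_one, one_mul]
        calc _ ≤ volume (G \ tr W τ) + volume (G ∩ tr W τ) := by gcongr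
          _ = volume G := by rw [add_comm, h2]
      exact (ENNReal.add_le_add_iff_right (ENNReal.mul_ne_top ENNReal.ofReal_ne_top hGtop)).1 h3

/-- The measure of the translates near zero. -/
lemma vol_tr {W : Set ℝ} {h c : ℝ} {τ : ℝ} (hτ : τ ∈ Set.Icc 0 h) :
    volume (Set.Ico h c ∩ tr W τ) ≤ volume (W ∩ Set.Ico 0 c) := by
  rw [← measure_preimage_add_right volume (-τ) (W ∩ Set.Ico 0 c)]
  refine measure_mono ?_
  rintro x ⟨⟨hx1, hx2⟩, hx⟩
  refine ⟨hx, ?_, ?_⟩
  · linarith [hτ.2]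
  · linarith [hτ.1]

end Pool.Agent.X297.LS
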