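import Mathlib.Analysis.SpecialFunctions.Complex.Circle
import Mathlib.Analysis.SpecialFunctions.Complex.CircleAddChar
import Mathlib.RingTheory.Coprime.Lemmas
import Mathlib.Algebra.Order.Star.Real

/-!
# The kernel
-/

open Complex

namespace Pool.Agent.X297.LS

/-- The function `exp (2 π i t)`. -/
noncomputable def ee (t : ℝ) : ℂ := Complex.exp (2 * Real.pi * Complex.I * t)

lemma ee_add (s t : ℝ) : ee (s + t) = ee s * ee t := by
  rw [ee, ee, ee, ← Complex.exp_add]
  congr 1
  push_cast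
  ring

lemma ee_zero : ee 0 = 1 := by simp [ee]

lemma ee_int (n : ℤ) : ee n = 1 := by
  rw [ee, Complex.exp_eq_one_iff]
  exact ⟨n, by push_cast; ring⟩

lemma norm_ee (t : ℝ) : ‖ee t‖ = 1 := by
  rw [ee, show (2 * Real.pi * Complex.I * t : ℂ) = ((2 * Real.pi * t : ℝ) : ℂ) * Complex.I by
    push_cast; ring]
  exact Complex.norm_exp_ofReal_mul_I _

lemma ee_ne (t : ℝ) : ee t ≠ 0 := by
  intro h
  have := norm_ee t
  rw [h, norm_zero] at this
  exact zero_ne_one this

lemma ee_eq_one {t : ℝ} : ee t = 1 ↔ ∃ n : ℤ, t = n := by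
  constructor
  · intro h
    rw [ee, Complex.exp_eq_one_iff] at h
    obtain ⟨n, hn⟩ := h
    refine ⟨n, ?_⟩
    have h1 : (t : ℂ) = n := by
      have h2 : (2 * Real.pi * Complex.I : ℂ) ≠ 0 := Complex.two_pi_I_ne_zero
      apply mul_left_cancel₀ h2
      rw [hn]
      ring
    exact_mod_cast h1
  · rintro ⟨n, rfl⟩
    exact ee_int n

lemma ee_neg (t : ℝ) : ee (-t) = (ee t)⁻¹ := by
  refine eq_inv_of_mul_eq_one_left ?_
  rw [← ee_add, neg_add_cancel, ee_zero]

lemma ee_zpow (t : ℝ) (n : ℤ) : ee t ^ n = ee (n * t) := by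
  rw [ee, ee, ← Complex.exp_int_mul]
  congr 1
  push_cast
  ring

lemma ee_sum {ι : Type*} (s : Finset ι) (f : ι → ℝ) : ee (∑ i ∈ s, f i) = ∏ i ∈ s, ee (f i) := by
  classical
  induction s using Finset.induction_on with
  | empty => simp [ee_zero]
  | insert i s hi ih => rw [Finset.sum_insert hi, Finset.prod_insert hi, ee_add, ih]

/-- The sum over a full period. -/
lemma sum_ee {P : ℕ} (hP : 0 < P) (a : ℤ) :
    ∑ k ∈ Finset.range P, ee (k * (a / P : ℝ)) = if (P : ℤ) ∣ a then (P : ℂ) else 0 := by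
  have hP' : (P : ℝ) ≠ 0 := by exact_mod_cast hP.ne'
  have h1 : ∀ k : ℕ, ee (k * (a / P : ℝ)) = ee (a / P) ^ k := by
    intro k
    have := ee_zpow (a / P) k
    rw [zpow_natCast] at this
    rw [this]
    push_cast
    rfl
  simp only [h1]
  split_ifs with h
  · obtain ⟨b, rfl⟩ := h
    have h2 : ee (((P * b : ℤ) : ℝ) / P) = 1 := by
      push_cast
      rw [mul_div_assoc, mul_div_cancel₀ _ hP']
      exact ee_int b
    simp only [h2, one_pow, Finset.sum_const, Finset.card_range, nsmul_eq_mul, mul_one]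
  · have h2 : ee (a / P) ≠ 1 := by
      intro h3
      obtain ⟨n, hn⟩ := ee_eq_one.1 h3
      apply h
      refine ⟨n, ?_⟩
      rw [div_eq_iff hP'] at hn
      have : (a : ℝ) = ((P * n : ℤ) : ℝ) := by
        push_cast
        rw [hn]
        ring
      exact_mod_cast this
    have h3 : ee (a / P) ^ P = 1 := by
      have := ee_zpow (a / P) P
      rw [zpow_natCast] at this
      rw [this]
      push_cast
      rw [mul_div_cancel₀ _ hP']
      exact ee_int a
    rw [geom_sum_eq h2, h3, sub_self, zero_div]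

/-- The kernel. -/
noncomputable def Fk (N : ℕ) (z : ℂ) : ℝ := ((2 + z.re) / 3) ^ N

lemma base_pos {z : ℂ} (hz : ‖z‖ = 1) : 1 / 3 ≤ (2 + z.re) / 3 ∧ (2 + z.re) / 3 ≤ 1 := by
  have h := abs_le.1 ((Complex.abs_re_le_norm z).trans_eq hz)
  constructor <;> linarith [h.1, h.2]

lemma Fk_nonneg (N : ℕ) {z : ℂ} (hz : ‖z‖ = 1) : 0 ≤ Fk N z :=
  pow_nonneg (by linarith [(base_pos hz).1]) _

lemma Fk_le_one (N : ℕ) {z : ℂ} (hz : ‖z‖ = 1) : Fk N z ≤ 1 :=
  pow_le_one₀ (by linarith [(base_pos hz).1]) (base_pos hz).2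

lemma Fk_zero (z : ℂ) : Fk 0 z = 1 := pow_zero _

lemma Fk_one (N : ℕ) : Fk N 1 = 1 := by
  rw [Fk, Complex.one_re]
  norm_num

lemma inv_unit {z : ℂ} (hz : ‖z‖ = 1) : z⁻¹.re = z.re ∧ z⁻¹.im = -z.im := by
  have h : Complex.normSq z = 1 := by
    rw [Complex.normSq_eq_norm_sq, hz]; norm_num
  rw [Complex.inv_re, Complex.inv_im, h]
  constructor <;> ring

lemma sq_unit {z : ℂ} (hz : ‖z‖ = 1) : z.re ^ 2 + z.im ^ 2 = 1 := by
  have h : Complex.normSq z = 1 := by
    rw [Complex.normSq_eq_norm_sq, hz]; norm_num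
  rw [Complex.normSq_apply] at h
  nlinarith

/-- The kernel near `1`. -/
lemma Fk_near (N : ℕ) {u z : ℂ} (hz : ‖z‖ = 1) (hu1 : ‖u - 1‖ ≤ 1 / 5) :
    Fk N (u * z⁻¹) ≤ (6 / 5) ^ N * Fk N z := by
  rw [Fk, Fk, ← mul_pow]
  have h1 : (u * z⁻¹).re ≤ z.re + 1 / 5 := by
    have h2 : u * z⁻¹ = z⁻¹ + (u - 1) * z⁻¹ := by ring
    have h3 : ((u - 1) * z⁻¹).re ≤ 1 / 5 := by
      refine (Complex.re_le_norm _).trans ?_
      rw [norm_mul, norm_inv, hz, inv_one, mul_one]
      exact hu1
    rw [h2, Complex.add_re, (inv_unit hz).1]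
    linarith
  have h2 := base_pos hz
  by_cases h3 : 0 ≤ (2 + (u * z⁻¹).re) / 3
  · apply pow_le_pow_left₀ h3
    linarith
  · have h4 : -1 - 1 / 5 ≤ (u * z⁻¹).re := by
      have h5 := (abs_le.1 (Complex.abs_re_le_norm (u * z⁻¹))).1
      rw [norm_mul, norm_inv, hz, inv_one, mul_one] at h5
      have h6 : ‖u‖ ≤ 1 + 1 / 5 := by
        calc ‖u‖ = ‖1 + (u - 1)‖ := by ring_nf
          _ ≤ ‖(1 : ℂ)‖ + ‖u - 1‖ := norm_add_le _ _
          _ ≤ 1 + 1 / 5 := by rw [norm_one]; linarith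
      linarith
    exfalso
    apply h3
    linarith

/-- The kernel far from `1`. -/
lemma Fk_far (N : ℕ) {u z : ℂ} (hz : ‖z‖ = 1) (hu : ‖u‖ = 1) (hur : u.re ≤ -1 / 2) :
    Fk N z * Fk N (u * z⁻¹) ≤ (25 / 36) ^ N := by
  rw [Fk, Fk, ← mul_pow]
  have huz : ‖u * z⁻¹‖ = 1 := by rw [norm_mul, norm_inv, hz, hu]; norm_num
  have h1 := (base_pos hz).1
  have h2 := (base_pos huz).1
  apply pow_le_pow_left₀ (mul_nonneg (by linarith) (by linarith))
  have h3 : (u * z⁻¹).re = u.re * z.re + u.im * z.im := by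
    rw [Complex.mul_re, (inv_unit hz).1, (inv_unit hz).2]
    ring
  have h4 := sq_unit hz
  have h5 := sq_unit hu
  have h6 : z.re + (u * z⁻¹).re ≤ 1 := by
    rw [h3]
    have h7 : (z.re + (u.re * z.re + u.im * z.im)) ^ 2 ≤ 1 := by
      have h8 : (z.re + (u.re * z.re + u.im * z.im)) ^ 2 ≤
          ((1 + u.re) ^ 2 + u.im ^ 2) * (z.re ^ 2 + z.im ^ 2) := by
        nlinarith [sq_nonneg ((1 + u.re) * z.im - u.im * z.re)]
      nlinarith
    nlinarith [abs_le_one_iff_mul_self_le_one.2 (by nlinarith :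
      (z.re + (u.re * z.re + u.im * z.im)) * (z.re + (u.re * z.re + u.im * z.im)) ≤ 1),
      le_abs_self (z.re + (u.re * z.re + u.im * z.im))]
  nlinarith [sq_nonneg ((2 + z.re) / 3 - (2 + (u * z⁻¹).re) / 3)]

/-- The Fourier coefficients of the kernel. -/
noncomputable def cf : ℕ → ℤ → ℝ
  | 0, n => if n = 0 then 1 else 0
  | N + 1, n => (4 * cf N n + cf N (n - 1) + cf N (n + 1)) / 6

lemma cf_nonneg (N : ℕ) (n : ℤ) : 0 ≤ cf N n := by
  induction N generalizing n with
  | zero => rw [cf]; split_ifs <;> norm_num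
  | succ N ih =>
    rw [cf]
    have := ih n
    have := ih (n - 1)
    have := ih (n + 1)
    positivity

lemma cf_supp (N : ℕ) {n : ℤ} (h : N < n.natAbs) : cf N n = 0 := by
  induction N generalizing n with
  | zero =>
    rw [cf, if_neg]
    rintro rfl
    simp at h
  | succ N ih =>
    rw [cf, ih (by omega), ih (n := n - 1) (by omega), ih (n := n + 1) (by omega)]
    norm_num

/-- The Fourier expansion of the kernel. -/
lemma Fk_eq (N : ℕ) {z : ℂ} (hz : ‖z‖ = 1) {M : ℤ} (hM : (N : ℤ) ≤ M) :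
    (Fk N z : ℂ) = ∑ n ∈ Finset.Icc (-M) M, (cf N n : ℂ) * z ^ n := by
  have hz0 : z ≠ 0 := by
    intro h
    rw [h, norm_zero] at hz
    exact zero_ne_one hz
  induction N generalizing M with
  | zero =>
    rw [Fk_zero, Finset.sum_eq_single 0]
    · simp [cf]
    · intro n _ hn
      rw [cf, if_neg hn]
      simp
    · intro h
      exfalso
      apply h
      rw [Finset.mem_Icc]
      push_cast at hM
      omega
  | succ N ih =>
    push_cast at hM
    have h1 : (Fk (N + 1) z : ℂ) = (Fk N z : ℂ) * ((4 + z + z⁻¹) / 6) := by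
      have h2 : ((2 + z.re : ℝ) : ℂ) = (4 + z + z⁻¹) / 2 := by
        apply Complex.ext
        · rw [Complex.ofReal_re]
          simp only [Complex.div_ofNat_re, Complex.add_re, (inv_unit hz).1, Complex.re_ofNat]
          ring
        · rw [Complex.ofReal_im]
          simp only [Complex.div_ofNat_im, Complex.add_im, (inv_unit hz).2, Complex.im_ofNat]
          ring
      rw [Fk, pow_succ, Complex.ofReal_mul, ← Fk, Complex.ofReal_div, h2]
      push_cast
      ring
    have h3 : ∑ n ∈ Finset.Icc (-M) M, (cf N (n - 1) : ℂ) * z ^ n = z * Fk N z := by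
      rw [ih (M := M + 1) (by omega), Finset.mul_sum]
      symm
      rw [← Finset.sum_subset (s₁ := Finset.Icc (-M - 1) (M - 1)) (by
        intro n hn
        rw [Finset.mem_Icc] at hn ⊢
        omega) (by
        intro n hn hn'
        rw [Finset.mem_Icc] at hn hn'
        rw [cf_supp N (by omega)]
        simp)]
      refine Finset.sum_bij (fun n _ => n + 1) ?_ ?_ ?_ ?_
      · intro n hn
        rw [Finset.mem_Icc] at hn ⊢
        omega
      · intro a _ b _ hab
        omega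
      · intro n hn
        rw [Finset.mem_Icc] at hn
        exact ⟨n - 1, by rw [Finset.mem_Icc]; omega, by omega⟩
      · intro n _
        rw [add_sub_cancel_right, zpow_add₀ hz0, zpow_one]
        ring
    have h4 : ∑ n ∈ Finset.Icc (-M) M, (cf N (n + 1) : ℂ) * z ^ n = z⁻¹ * Fk N z := by
      rw [ih (M := M + 1) (by omega), Finset.mul_sum]
      symm
      rw [← Finset.sum_subset (s₁ := Finset.Icc (-M + 1) (M + 1)) (by
        intro n hn
        rw [Finset.mem_Icc] at hn ⊢
        omega) (by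
        intro n hn hn'
        rw [Finset.mem_Icc] at hn hn'
        rw [cf_supp N (by omega)]
        simp)]
      refine Finset.sum_bij (fun n _ => n - 1) ?_ ?_ ?_ ?_
      · intro n hn
        rw [Finset.mem_Icc] at hn ⊢
        omega
      · intro a _ b _ hab
        omega
      · intro n hn
        rw [Finset.mem_Icc] at hn
        exact ⟨n + 1, by rw [Finset.mem_Icc]; omega, by omega⟩
      · intro n _
        rw [sub_add_cancel, zpow_sub₀ hz0, zpow_one]
        field_simp
    have h5 : ∀ n : ℤ, (cf (N + 1) n : ℂ) * z ^ n = (4 * ((cf N n : ℂ) * z ^ n) +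
        (cf N (n - 1) : ℂ) * z ^ n + (cf N (n + 1) : ℂ) * z ^ n) / 6 := by
      intro n
      rw [cf]
      push_cast
      ring
    simp only [h5]
    rw [← Finset.sum_div, Finset.sum_add_distrib, Finset.sum_add_distrib, ← Finset.mul_sum, h3, h4,
      ← ih (M := M) (by omega), h1]
    ring

end Pool.Agent.X297.LS
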