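import Pool.Agent.X297.LS.Block
import Pool.Agent.X297.LS.Greedy
import Mathlib.Analysis.SpecificLimits.Normed
import Mathlib.NumberTheory.PrimeCounting

/-!
# One stage of the construction
-/

open MeasureTheory

namespace Pool.Agent.X297.LS

lemma exists_N {η : ℝ} (hη : 0 < η) : ∃ N : ℕ, (5 / 6 : ℝ) ^ N * ((N : ℝ) + 1) ^ 2 ≤ η := by
  have h := tendsto_pow_const_mul_const_pow_of_abs_lt_one 2 (r := (5 / 6 : ℝ))
    (by rw [abs_of_pos] <;> norm_num)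
  have h2 : ∀ᶠ n : ℕ in Filter.atTop, (n : ℝ) ^ 2 * (5 / 6) ^ n ≤ η * (5 / 6) :=
    h.eventually_le_const (by positivity)
  obtain ⟨N, hN, hN1⟩ := (h2.and (Filter.eventually_ge_atTop 1)).exists
  obtain ⟨M, rfl⟩ := Nat.exists_eq_add_of_le' hN1
  refine ⟨M, ?_⟩
  rw [pow_succ (5 / 6 : ℝ)] at hN
  push_cast at hN
  nlinarith

lemma exists_primes (K m : ℕ) : ∃ p : Fin m → ℕ, Function.Injective p ∧ (∀ i, (p i).Prime) ∧
    ∀ i, K ≤ p i := by
  refine ⟨fun i => Nat.nth Nat.Prime (K + i), ?_, fun i => Nat.prime_nth_prime _, fun i => ?_⟩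
  · intro i j hij
    have h1 := (Nat.nth_strictMono Nat.infinite_setOfPred_prime).injective hij
    exact Fin.ext (by omega)
  · exact le_trans (Nat.le_add_right K i) (Nat.nth_strictMono Nat.infinite_setOfPred_prime).le_apply

lemma exists_CRT {m : ℕ} (hm : 0 < m) (K : ℕ) : ∃ D : CRT m, ∀ i, K ≤ D.p i := by
  obtain ⟨p, h1, h2, h3⟩ := exists_primes K m
  have : Nonempty (Fin m) := ⟨⟨0, hm⟩⟩
  have h4 : Pairwise (Function.onFun IsCoprime fun i : Fin m => (p i : ℤ)) := fun i j hij =>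
    Nat.isCoprime_iff_coprime.2 ((Nat.coprime_primes (h2 i) (h2 j)).2 (h1.ne hij))
  obtain ⟨c, hc⟩ := exists_sum_eq_one_iff_pairwise_coprime'.2 h4
  exact ⟨{ p := p, pos := fun l => (h2 l).pos, c := c, bez := hc }, h3⟩

lemma ind_le {V : Set ℝ} (hV : MeasurableSet V) {a b : ℝ} (hab : a ≤ b) : ind V a b ≤ b - a := by
  have h1 := intervalIntegral.integral_mono_on hab (int_ind hV a b)
    (intervalIntegrable_const (c := (1 : ℝ))) (fun x _ => by
      by_cases h : x ∈ V <;> simp [h])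
  rw [intervalIntegral.integral_const, smul_eq_mul, mul_one] at h1
  exact h1

/-- One stage of the construction. -/
lemma stage {ε : ℝ} (hε : 0 < ε) (hε1 : ε < 1) (Q : ℕ) : ∃ (E : ℕ → Set ℝ) (M : ℕ),
    (∀ n x, x ∈ E n → Q < n ∧ n ≤ M) ∧ (∀ n, MeasurableSet (E n)) ∧
    (∀ (n : ℕ) (x : ℝ), x + 1 / n ∈ E n ↔ x ∈ E n) ∧
    volume (Set.Ico (1 / 64) (1 / 32) ∩ ⋃ n, E n) ≤ ENNReal.ofReal ε ∧
    volume (Set.Icc (2 / 5 + 1 / 64) (3 / 5) \ ⋃ n, E n) ≤ ENNReal.ofReal ε := by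
  set L := -Real.log ε with hL
  have hL0 : 0 < L := by
    rw [hL]
    linarith [Real.log_neg hε hε1]
  set C := 64 * (2 * L + 1) with hC
  have hC0 : 0 < C := by positivity
  obtain ⟨N, hN⟩ := exists_N (η := min (ε / C) (1 / 8)) (lt_min (by positivity) (by norm_num))
  have hN1 := hN.trans (min_le_left _ _)
  have hN2 := hN.trans (min_le_right _ _)
  set κ := cf N 0 with hκ
  have hκ1 : 1 / ((N : ℝ) + 1) ≤ κ := cf_zero_ge N
  have hκ0 : 0 < κ := lt_of_lt_of_le (by positivity) hκ1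
  have hb0 : (0 : ℝ) < (25 / 36) ^ N := by positivity
  have hκ2 : 1 ≤ κ ^ 2 * ((N : ℝ) + 1) ^ 2 := by
    rw [div_le_iff₀ (by positivity)] at hκ1
    nlinarith
  have hb1 : ((25 : ℝ) / 36) ^ N ≤ (5 / 6) ^ N := pow_le_pow_left₀ (by norm_num) (by norm_num) _
  have hb2 : ((6 : ℝ) / 5) ^ N * (25 / 36) ^ N = (5 / 6) ^ N := by
    rw [← mul_pow]
    norm_num
  set A := κ ^ 2 / (8 * (25 / 36) ^ N) with hA
  have hA1 : 1 ≤ A := by
    rw [hA, one_le_div (by positivity)]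
    have h1 : 8 * (25 / 36) ^ N * ((N : ℝ) + 1) ^ 2 ≤ 1 := by
      calc 8 * (25 / 36) ^ N * ((N : ℝ) + 1) ^ 2 ≤ 8 * (5 / 6) ^ N * ((N : ℝ) + 1) ^ 2 := by gcongr
        _ = 8 * ((5 / 6) ^ N * ((N : ℝ) + 1) ^ 2) := by ring
        _ ≤ 8 * (1 / 8) := by gcongr
        _ = 1 := by norm_num
    have h2 : (0 : ℝ) < ((N : ℝ) + 1) ^ 2 := by positivity
    exact le_of_mul_le_mul_right (h1.trans hκ2) h2
  set m := ⌊A⌋₊ with hm
  have hm1 : 1 ≤ m := Nat.one_le_floor_iff _ |>.2 hA1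
  have hm1' : (1 : ℝ) ≤ m := by exact_mod_cast hm1
  have hmA : (m : ℝ) ≤ A := Nat.floor_le (by linarith)
  have hmA' : A < m + 1 := Nat.lt_floor_add_one _
  have hm8 : 8 * (m : ℝ) * (25 / 36) ^ N ≤ κ ^ 2 := by
    rw [hA, le_div_iff₀ (by positivity)] at hmA
    linarith
  have hm16 : κ ^ 2 ≤ 16 * m * (25 / 36) ^ N := by
    have h1 : A ≤ 2 * m := by linarith
    rw [hA, div_le_iff₀ (by positivity)] at h1
    linarith
  obtain ⟨D, hD⟩ := exists_CRT hm1 (Q + N + 200)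
  have hDN : ∀ l, N < D.p l := fun l => by
    have := hD l
    omega
  have hDh : ∀ l, 2 / (1 / 64 : ℝ) ≤ D.p l := fun l => by
    have h1 := hD l
    have h2 : 128 ≤ D.p l := by omega
    norm_num
    exact h2
  have hDP : 15 ≤ D.P := by
    have h1 := D.p_mul_q ⟨0, hm1⟩
    have h2 := hD ⟨0, hm1⟩
    have h3 : D.q ⟨0, hm1⟩ ≠ 0 := by
      intro h
      rw [h, mul_zero] at h1
      exact D.P_pos.ne' h1.symm
    rw [← h1]
    have h4 : 1 ≤ D.q ⟨0, hm1⟩ := Nat.one_le_iff_ne_zero.2 h3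
    nlinarith
  set δ := m * κ ^ m / 4 with hδ
  have hδ0 : 0 < δ := by positivity
  have hlow : ∀ y : ℝ, 2 / 5 + 1 / 64 ≤ y → y ≤ 3 / 5 →
      δ * (1 / 64) ≤ ind (D.W N) (y - 1 / 64) y := by
    intro y hy1 hy2
    have h1 := D.W_far N hDN (by norm_num : (0 : ℝ) < 1 / 64) hDh hDP hm8 (y := y - 1 / 64)
      (by linarith) (by linarith)
    rwa [sub_add_cancel] at h1
  have hδ1 : δ ≤ 1 := by
    have h1 := (hlow (3 / 5) (by norm_num) le_rfl).trans (ind_le (D.meas_W N) (by norm_num))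
    linarith
  set R := ⌈2 * L / δ⌉₊ with hR
  have hR1 : 2 * L / δ ≤ R := Nat.le_ceil _
  have hR2 : (R : ℝ) < 2 * L / δ + 1 := Nat.ceil_lt_add_one (by positivity)
  obtain ⟨T, hT1, hT2, hT3⟩ := greedy (D.meas_W N) (by norm_num : (0 : ℝ) < 1 / 64) hδ0 hδ1 hlow R
  have hU : ⋃ n, (⋃ i, ⋃ (_ : D.p i = n), ⋃ τ ∈ T, tr (D.V N i) τ) = ⋃ τ ∈ T, tr (D.W N) τ := by
    ext x
    simp only [Set.mem_iUnion, tr, CRT.W]
    constructor
    · rintro ⟨_, i, _, τ, hτ, hx⟩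
      exact ⟨τ, hτ, i, hx⟩
    · rintro ⟨τ, hτ, i, hi⟩
      exact ⟨_, i, rfl, τ, hτ, hi⟩
  refine ⟨fun n => ⋃ i, ⋃ (_ : D.p i = n), ⋃ τ ∈ T, tr (D.V N i) τ, D.P, ?_, ?_, ?_, ?_, ?_⟩
  · intro n x hx
    obtain ⟨i, hi⟩ := Set.mem_iUnion.1 hx
    obtain ⟨rfl, _⟩ := Set.mem_iUnion.1 hi
    have h1 := hD i
    exact ⟨by omega, Nat.le_of_dvd D.P_pos ⟨_, (D.p_mul_q i).symm⟩⟩
  · intro n
    exact MeasurableSet.iUnion fun i => MeasurableSet.iUnion fun _ =>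
      T.measurableSet_biUnion fun τ _ => meas_tr (D.meas_V N i) τ
  · intro n x
    simp only [Set.mem_iUnion]
    refine exists_congr fun i => exists_congr fun hi => exists_congr fun τ => exists_congr
      fun hτ => ?_
    subst hi
    change x + 1 / D.p i - τ ∈ D.V N i ↔ x - τ ∈ D.V N i
    rw [← D.V_per N i (x - τ), show x + 1 / (D.p i : ℝ) - τ = x - τ + 1 / D.p i by ring]
  · rw [hU, Set.inter_iUnion₂]
    refine (measure_biUnion_finset_le _ _).trans ?_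
    have h1 : ∀ τ ∈ T, volume (Set.Ico (1 / 64) (1 / 32) ∩ tr (D.W N) τ) ≤
        ENNReal.ofReal ((6 / 5) ^ N * κ ^ m) := fun τ hτ =>
      (vol_tr (hT2 τ hτ)).trans (D.W_near N hDN)
    refine (Finset.sum_le_card_nsmul _ _ _ h1).trans ?_
    rw [← ENNReal.ofReal_nsmul]
    apply ENNReal.ofReal_le_ofReal
    rw [nsmul_eq_mul]
    have h2 : (T.card : ℝ) ≤ 2 * L / δ + 1 := by
      have : (T.card : ℝ) ≤ R := by exact_mod_cast hT1
      linarith
    set X := (5 / 6 : ℝ) ^ N * ((N : ℝ) + 1) ^ 2 with hX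
    have hX0 : 0 < X := by positivity
    have h3 : (6 / 5) ^ N * κ ^ m ≤ δ * 64 * X := by
      have h4 : (6 / 5 : ℝ) ^ N ≤ 16 * m * X := by
        have h5 : 1 ≤ 16 * m * (25 / 36) ^ N * ((N : ℝ) + 1) ^ 2 :=
          hκ2.trans (mul_le_mul_of_nonneg_right hm16 (by positivity))
        calc (6 / 5 : ℝ) ^ N = (6 / 5) ^ N * 1 := (mul_one _).symm
          _ ≤ (6 / 5) ^ N * (16 * m * (25 / 36) ^ N * ((N : ℝ) + 1) ^ 2) :=
              mul_le_mul_of_nonneg_left h5 (by positivity)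
          _ = 16 * m * (((6 / 5) ^ N * (25 / 36) ^ N) * ((N : ℝ) + 1) ^ 2) := by ring
          _ = 16 * m * X := by rw [hb2]
      calc (6 / 5) ^ N * κ ^ m ≤ (16 * m * X) * κ ^ m :=
            mul_le_mul_of_nonneg_right h4 (by positivity)
        _ = δ * 64 * X := by rw [hδ]; ring
    calc (T.card : ℝ) * ((6 / 5) ^ N * κ ^ m) ≤ (2 * L / δ + 1) * (δ * 64 * X) :=
          mul_le_mul h2 h3 (by positivity) (by positivity)
      _ = (2 * L + δ) * 64 * X := by field_simp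
      _ ≤ (2 * L + 1) * 64 * X := by gcongr
      _ = C * X := by rw [hC]; ring
      _ ≤ C * (ε / C) := by gcongr
      _ = ε := by field_simp
  · rw [hU]
    refine hT3.trans ?_
    have h1 : (1 - δ / 2) ^ R ≤ ε := by
      have h2 : (1 - δ / 2) ^ R ≤ Real.exp (-(δ / 2)) ^ R :=
        pow_le_pow_left₀ (by linarith) (Real.one_sub_le_exp_neg _) _
      refine h2.trans ?_
      rw [← Real.exp_nat_mul]
      have h3 : (R : ℝ) * -(δ / 2) ≤ -L := by
        rw [div_le_iff₀ hδ0] at hR1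
        linarith
      calc _ ≤ Real.exp (-L) := Real.exp_le_exp.2 h3
        _ = ε := by rw [hL, neg_neg, Real.exp_log hε]
    have h2 : volume (Set.Icc (2 / 5 + 1 / 64 : ℝ) (3 / 5)) ≤ 1 := by
      rw [Real.volume_Icc, ← ENNReal.ofReal_one]
      apply ENNReal.ofReal_le_ofReal
      norm_num
    calc _ ≤ ENNReal.ofReal ε * 1 := mul_le_mul' (ENNReal.ofReal_le_ofReal h1) h2
      _ = _ := mul_one _

end Pool.Agent.X297.LS
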